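import Pool.Agent.W665.HAP.Defs

set_option autoImplicit false

/-! Definitions: representations of C*-algebras with a trace vector. -/

open scoped InnerProductSpace CStarAlgebra ComplexOrder

namespace Pool.Agent.Y269.HH

/-- a unital star representation of `A` on `K` -/
noncomputable abbrev Rep (A K : Type) [CStarAlgebra A] [NormedAddCommGroup K] [InnerProductSpace ℂ K]
    [CompleteSpace K] : Type := A →⋆ₐ[ℂ] (K →L[ℂ] K)

/-- a unital star homomorphism -/
noncomputable abbrev Mor (B A : Type) [CStarAlgebra B] [CStarAlgebra A] : Type := B →⋆ₐ[ℂ] A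

/-- the composition of a representation of `A` and a homomorphism `B → A` -/
noncomputable def resRep {A B K : Type} [CStarAlgebra A] [CStarAlgebra B] [NormedAddCommGroup K]
    [InnerProductSpace ℂ K] [CompleteSpace K] (π : Rep A K) (j : Mor B A) : Rep B K :=
  π.comp j

/-- the set of the operators `π a` -/
def ops {A K : Type} [CStarAlgebra A] [NormedAddCommGroup K] [InnerProductSpace ℂ K]
    [CompleteSpace K] (π : Rep A K) : Set (K →L[ℂ] K) := Set.range π

/-- `Ω` is cyclic for `π` -/
def IsCyclic {A K : Type} [CStarAlgebra A] [NormedAddCommGroup K] [InnerProductSpace ℂ K]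
    [CompleteSpace K] (π : Rep A K) (Ω : K) : Prop := DenseRange fun a : A => π a Ω

/-- `π` is injective and `τ` is the vector functional of `Ω` -/
def IsVectorState {A K : Type} [CStarAlgebra A] [PartialOrder A] [StarOrderedRing A]
    [NormedAddCommGroup K] [InnerProductSpace ℂ K] [CompleteSpace K]
    (τ : A →ₚ[ℂ] ℂ) (π : Rep A K) (Ω : K) : Prop :=
  Function.Injective π ∧ ∀ a : A, τ a = ⟪Ω, π a Ω⟫_ℂ

/-- `π A` is the von Neumann algebra generated by `π B` (bicommutant) -/
def GeneratesVN {A B K : Type} [CStarAlgebra A] [CStarAlgebra B] [NormedAddCommGroup K]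
    [InnerProductSpace ℂ K] [CompleteSpace K] (π : Rep A K) (j : Mor B A) : Prop :=
  ops π = (ops (resRep π j)).centralizer.centralizer

/-- `j` identifies `B` with a norm closed subalgebra of `A`, and `σ` is the restriction of `τ` -/
def IsRestriction {A B : Type} [CStarAlgebra A] [PartialOrder A] [StarOrderedRing A]
    [CStarAlgebra B] [PartialOrder B] [StarOrderedRing B]
    (τ : A →ₚ[ℂ] ℂ) (σ : B →ₚ[ℂ] ℂ) (j : Mor B A) : Prop :=
  Function.Injective j ∧ IsClosed (Set.range j) ∧ ∀ b : B, σ b = τ (j b)

end Pool.Agent.Y269.HH
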