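import Pool.Agent.W665.HAP.Fin

set_option autoImplicit false
set_option linter.unusedSectionVars false
set_option linter.unusedVariables false

/-! The small algebra generates the big one as a von Neumann algebra. -/

open scoped InnerProductSpace ComplexOrder ComplexConjugate CStarAlgebra

namespace Pool.Agent.Y269.HH

open Pool.Agent.W665.HAP

variable (H : Option ℕ → Subgroup F2) [hN : ∀ i, (H i).Normal]

theorem norm_star_Om (e : HS (XX H) →L[ℂ] HS (XX H)) (he : e ∈ AS H) :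
    ‖(star e) (Om H)‖ = ‖e (Om H)‖ := by
  have h1 := trace_comm (H := H) e (star e) he (star_mem he)
  have h2 : ⟪Om H, e ((star e) (Om H))⟫_ℂ = ⟪(star e) (Om H), (star e) (Om H)⟫_ℂ := by
    rw [ContinuousLinearMap.star_eq_adjoint, ContinuousLinearMap.adjoint_inner_left]
  have h3 : ⟪Om H, (star e) (e (Om H))⟫_ℂ = ⟪e (Om H), e (Om H)⟫_ℂ := by
    rw [ContinuousLinearMap.star_eq_adjoint, ContinuousLinearMap.adjoint_inner_right]
  rw [h2, h3, inner_self_eq_norm_sq_to_K, inner_self_eq_norm_sq_to_K] at h1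
  have h4 : ‖(star e) (Om H)‖ ^ 2 = ‖e (Om H)‖ ^ 2 := by exact_mod_cast h1
  exact (sq_eq_sq₀ (norm_nonneg _) (norm_nonneg _)).1 h4

/-- right multiplication is bounded -/
theorem norm_right (e b : HS (XX H) →L[ℂ] HS (XX H)) (he : e ∈ AS H) (hb : b ∈ AS H) :
    ‖e (b (Om H))‖ ≤ ‖b‖ * ‖e (Om H)‖ := by
  have h1 := norm_star_Om H (e * b) (mul_mem he hb)
  rw [star_mul] at h1
  have h2 : ‖(star b) ((star e) (Om H))‖ = ‖e (b (Om H))‖ := h1
  rw [← h2, ← norm_star_Om H e he, ← norm_star b]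
  exact (star b).le_opNorm _

/-- the operators of the small algebra -/
def SB : Set (HS (XX H) →L[ℂ] HS (XX H)) := Set.range ((op H).comp (iB H))

theorem SB_sub {d : HS (XX H) →L[ℂ] HS (XX H)} (hd : d ∈ SB H) : d ∈ AS H := by
  obtain ⟨b, rfl⟩ := hd
  exact op_mem (iB H b)

/-- the vectors of the small algebra -/
noncomputable def VB : Submodule ℂ (HS (XX H)) where
  carrier := {v | ∃ b : BB H, op H (iB H b) (Om H) = v}
  zero_mem' := ⟨0, by simp⟩
  add_mem' := by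
    rintro _ _ ⟨a, rfl⟩ ⟨b, rfl⟩
    exact ⟨a + b, by rw [map_add, map_add, add_apply]⟩
  smul_mem' := by
    rintro c _ ⟨a, rfl⟩
    exact ⟨c • a, by rw [map_smul, map_smul, smul_apply]⟩

theorem orth_VB (v : HS (XX H)) (hv : ∀ b : BB H, ⟪op H (iB H b) (Om H), v⟫_ℂ = 0) : v = 0 := by
  have h0 : ∀ i : Option ℕ, (((Real.sqrt (wc i) : ℝ) : ℂ)) ≠ 0 := fun i => by
    rw [Ne, Complex.ofReal_eq_zero]
    exact (Real.sqrt_pos.2 (wc_pos _)).ne'
  have hZR : ∀ (i : Option ℕ) (g : F2), Zop H i (Rop H g⁻¹ (Om H)) =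
      ((Real.sqrt (wc i) : ℝ) : ℂ) • (dl (⟨i, (g : F2 ⧸ H i)⟩ : XX H) : HS (XX H)) := by
    intro i g
    have h1 := congrArg (fun S : HS (XX H) →L[ℂ] HS (XX H) => S (Om H)) (Zop_Rop H i g⁻¹)
    have h2 : Zop H i (Rop H g⁻¹ (Om H)) = Rop H g⁻¹ (Zop H i (Om H)) := h1
    rw [h2, Zop_Om, map_smul, Rop_dl, inv_inv]
    have h3 : rE H g (bp H i) = ⟨i, (g : F2 ⧸ H i)⟩ := by
      show rE H g ⟨i, 1⟩ = _
      rw [rE_mk, one_mul]
    rw [h3]
  have hfin : ∀ (n : ℕ) (q : F2 ⧸ H (some n)), v ⟨some n, q⟩ = 0 := by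
    intro n q
    obtain ⟨g, rfl⟩ := QuotientGroup.mk_surjective q
    have h1 := hv (zB H n * rB H g⁻¹)
    rw [map_mul, map_mul, iB_zB, iB_rB, op_zA, op_rA] at h1
    have h2 : (Zop H (some n) * Rop H g⁻¹) (Om H) = _ := hZR (some n) g
    rw [h2, inner_smul_left, inner_dl] at h1
    have h3 := (mul_eq_zero.1 h1).resolve_left (by
      rw [Complex.conj_ofReal]; exact h0 _)
    exact h3
  have hZ : Zop H none v = v := by
    ext x
    rw [Zop_apply]
    by_cases hx : x.1 = none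
    · rw [if_pos hx]
    · rw [if_neg hx]
      obtain ⟨i, q⟩ := x
      cases i with
      | none => exact absurd rfl hx
      | some n => exact (hfin n q).symm
  have hinf : ∀ q : F2 ⧸ H none, v ⟨none, q⟩ = 0 := by
    intro q
    obtain ⟨g, rfl⟩ := QuotientGroup.mk_surjective q
    have h1 := hv (rB H g⁻¹)
    rw [iB_rB, op_rA, ← hZ] at h1
    have h2 : ⟪Rop H g⁻¹ (Om H), Zop H none v⟫_ℂ = ⟪Zop H none (Rop H g⁻¹ (Om H)), v⟫_ℂ := by
      have h3 := ContinuousLinearMap.adjoint_inner_left (Zop H none) v (Rop H g⁻¹ (Om H))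
      rw [← ContinuousLinearMap.star_eq_adjoint, Zop_star] at h3
      exact h3.symm
    rw [h2, hZR, inner_smul_left, inner_dl] at h1
    exact (mul_eq_zero.1 h1).resolve_left (by
      rw [Complex.conj_ofReal]; exact h0 _)
  ext x
  obtain ⟨i, q⟩ := x
  cases i with
  | none => exact hinf q
  | some n => exact hfin n q

theorem dense_VB : (VB H).topologicalClosure = ⊤ := by
  rw [Submodule.topologicalClosure_eq_top_iff, Submodule.eq_bot_iff]
  intro v hv
  rw [Submodule.mem_orthogonal] at hv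
  exact orth_VB H v fun b => hv _ ⟨b, rfl⟩

theorem approx (v : HS (XX H)) (ε : ℝ) (hε : 0 < ε) :
    ∃ b : BB H, ‖v - op H (iB H b) (Om H)‖ < ε := by
  have h1 : v ∈ closure ((VB H : Submodule ℂ (HS (XX H))) : Set (HS (XX H))) := by
    rw [← Submodule.topologicalClosure_coe, dense_VB]
    trivial
  obtain ⟨w, ⟨b, rfl⟩, hw⟩ := Metric.mem_closure_iff.1 h1 ε hε
  exact ⟨b, by rwa [dist_eq_norm] at hw⟩

/-- the trace vector is cyclic for the small algebra -/
theorem denseRange_B : DenseRange (fun b : BB H => op H (iB H b) (Om H)) := by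
  intro v
  rw [Metric.mem_closure_iff]
  intro ε hε
  obtain ⟨b, hb⟩ := approx H v ε hε
  exact ⟨_, ⟨b, rfl⟩, by rw [dist_eq_norm]; exact hb⟩

theorem eq_of_inner {S T : HS (XX H) →L[ℂ] HS (XX H)}
    (h : ∀ b c : BB H, ⟪op H (iB H c) (Om H), S (op H (iB H b) (Om H))⟫_ℂ =
      ⟪op H (iB H c) (Om H), T (op H (iB H b) (Om H))⟫_ℂ) : S = T := by
  have h1 : ∀ b : BB H, (S - T) (op H (iB H b) (Om H)) = 0 := by
    intro b
    refine orth_VB H _ fun c => ?_
    rw [sub_apply, inner_sub_right, h b c, sub_self]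
  have h2 : (VB H : Submodule ℂ (HS (XX H))) ≤ LinearMap.ker (S - T).toLinearMap := by
    rintro _ ⟨b, rfl⟩
    exact h1 b
  have h3 : (VB H).topologicalClosure ≤ LinearMap.ker (S - T).toLinearMap :=
    Submodule.topologicalClosure_minimal _ h2 (S - T).isClosed_ker
  rw [dense_VB] at h3
  ext1 f
  have h4 : (S - T) f = 0 := h3 (x := f) trivial
  rw [sub_apply] at h4
  exact sub_eq_zero.1 h4

theorem comm_of (T : HS (XX H) →L[ℂ] HS (XX H)) (hT : ∀ d ∈ SB H, d * T = T * d)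
    (a : HS (XX H) →L[ℂ] HS (XX H)) (ha : a ∈ AS H) : T * a = a * T := by
  refine eq_of_inner H fun b c => ?_
  set β := op H (iB H b) with hβ
  set γ := op H (iB H c) with hγ
  have hβm : β ∈ AS H := op_mem _
  have hγm : γ ∈ AS H := op_mem _
  by_contra hne
  set D : ℂ := ⟪γ (Om H), (T * a) (β (Om H))⟫_ℂ - ⟪γ (Om H), (a * T) (β (Om H))⟫_ℂ with hD
  have hD0 : 0 < ‖D‖ := norm_pos_iff.2 (sub_ne_zero.2 hne)
  set M : ℝ := ‖γ (Om H)‖ * (‖T‖ * ‖β‖) + ‖γ‖ * ‖T (β (Om H))‖ with hM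
  have hM0 : 0 ≤ M := by positivity
  obtain ⟨d, hd⟩ := approx H (a (Om H)) (‖D‖ / (M + 1)) (by positivity)
  set δ := op H (iB H d) with hδ
  have hδm : δ ∈ AS H := op_mem _
  have hem : a - δ ∈ AS H := sub_mem ha hδm
  have hdT : δ * T = T * δ := hT δ ⟨d, rfl⟩
  have key : D = ⟪γ (Om H), T ((a - δ) (β (Om H)))⟫_ℂ -
      ⟪γ (Om H), (a - δ) (T (β (Om H)))⟫_ℂ := by
    have e1 : δ (T (β (Om H))) = T (δ (β (Om H))) :=
      congrArg (fun S : HS (XX H) →L[ℂ] HS (XX H) => S (β (Om H))) hdT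
    rw [hD]
    show ⟪γ (Om H), T (a (β (Om H)))⟫_ℂ - ⟪γ (Om H), a (T (β (Om H)))⟫_ℂ = _
    rw [sub_apply, sub_apply, map_sub, inner_sub_right, inner_sub_right, e1]
    ring
  have n1 : ‖⟪γ (Om H), T ((a - δ) (β (Om H)))⟫_ℂ‖ ≤
      ‖γ (Om H)‖ * (‖T‖ * (‖β‖ * ‖(a - δ) (Om H)‖)) := by
    refine (norm_inner_le_norm _ _).trans ?_
    refine mul_le_mul_of_nonneg_left ?_ (norm_nonneg _)
    refine (T.le_opNorm _).trans ?_
    exact mul_le_mul_of_nonneg_left (norm_right H _ _ hem hβm) (norm_nonneg _)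
  have n2 : ‖⟪γ (Om H), (a - δ) (T (β (Om H)))⟫_ℂ‖ ≤
      (‖γ‖ * ‖(a - δ) (Om H)‖) * ‖T (β (Om H))‖ := by
    have e2 : ⟪γ (Om H), (a - δ) (T (β (Om H)))⟫_ℂ =
        ⟪(star (a - δ)) (γ (Om H)), T (β (Om H))⟫_ℂ := by
      rw [ContinuousLinearMap.star_eq_adjoint, ContinuousLinearMap.adjoint_inner_left]
    rw [e2]
    refine (norm_inner_le_norm _ _).trans ?_
    refine mul_le_mul_of_nonneg_right ?_ (norm_nonneg _)
    refine (norm_right H _ _ (star_mem hem) hγm).trans ?_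
    rw [norm_star_Om H _ hem]
  have n3 : ‖(a - δ) (Om H)‖ < ‖D‖ / (M + 1) := by
    rw [sub_apply]; exact hd
  have n4 : ‖D‖ ≤ M * ‖(a - δ) (Om H)‖ := by
    rw [key]
    refine (norm_sub_le _ _).trans ?_
    rw [hM]
    nlinarith [n1, n2]
  have n5 : M * ‖(a - δ) (Om H)‖ ≤ M * (‖D‖ / (M + 1)) :=
    mul_le_mul_of_nonneg_left n3.le hM0
  have n6 : M * (‖D‖ / (M + 1)) < ‖D‖ := by
    rw [← mul_div_assoc, div_lt_iff₀ (by linarith)]
    nlinarith
  linarith

/-- the small algebra generates the big one -/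
theorem bicomm : Set.range (op H) =
    Set.centralizer (Set.centralizer (Set.range ((op H).comp (iB H)))) := by
  ext a
  constructor
  · rintro ⟨x, rfl⟩
    rw [Set.mem_centralizer_iff]
    intro T hT
    rw [Set.mem_centralizer_iff] at hT
    exact comm_of H T hT _ (op_mem x)
  · intro ha
    rw [Set.mem_centralizer_iff] at ha
    have hm : a ∈ AS H := by
      refine (mem_AS H a).2 ⟨fun g => ha _ ?_, fun i => ha _ ?_⟩
      · rw [Set.mem_centralizer_iff]
        intro d hd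
        exact (((mem_AS H d).1 (SB_sub H hd)).1 g).symm
      · rw [Set.mem_centralizer_iff]
        intro d hd
        exact (((mem_AS H d).1 (SB_sub H hd)).2 i).symm
    exact ⟨mkA a hm, rfl⟩

end Pool.Agent.Y269.HH
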