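import Pool.Agent.W665.HAP.Fin

set_option autoImplicit false
set_option linter.unusedSectionVars false
set_option linter.unusedVariables false

/-! The small algebra is separable. -/

open scoped InnerProductSpace ComplexOrder ComplexConjugate CStarAlgebra

namespace Pool.Agent.Y269.HH

open Pool.Agent.W665.HAP

variable (H : Option ℕ → Subgroup F2) [hN : ∀ i, (H i).Normal]

/-- the countable generating set -/
def CS : Set (AA H) :=
  Set.range (rA H) ∪ Set.range (fun p : ℕ × F2 => zA H (some p.1) * rA H p.2)

theorem countable_CS : (CS H).Countable := by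
  have : Countable F2 := inferInstance
  exact (Set.countable_range _).union (Set.countable_range _)

theorem zero_of_blocks (X : AA H) (h : ∀ i, X * zA H i = 0) : X = 0 := by
  apply op_injective
  rw [map_zero]
  refine ext_dl fun y => ?_
  have h1 := congrArg (fun T : AA H => (op H T) (dl y)) (h y.1)
  have h2 : (op H (X * zA H y.1)) (dl y) = (op H X) (dl y) := by
    rw [map_mul, op_zA]
    show (op H X) (Zop H y.1 (dl y)) = _
    have e2 : ind H y.1 y = 1 := by unfold ind; rw [if_pos rfl]
    rw [Zop_dl, e2, one_smul]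
  have h3 : (op H (X * zA H y.1)) (dl y) = (op H (0 : AA H)) (dl y) := h1
  rw [h2, map_zero] at h3
  exact h3

theorem block_mem (hf : ∀ n, (H (some n)).FiniteIndex) (n : ℕ) (T : AA H) :
    T * zA H (some n) ∈ Submodule.span ℂ (CS H) := by
  classical
  have := hf n
  have : Fintype (F2 ⧸ H (some n)) := Fintype.ofFinite _
  have hw : ((Real.sqrt (wc (some n)) : ℝ) : ℂ) ≠ 0 := by
    rw [Ne, Complex.ofReal_eq_zero]
    exact (Real.sqrt_pos.2 (wc_pos _)).ne'
  let c : F2 ⧸ H (some n) → ℂ := fun q =>
    (op H T (Om H)) ⟨some n, q⟩ / ((Real.sqrt (wc (some n)) : ℝ) : ℂ)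
  have hY : T * zA H (some n) =
      ∑ q : F2 ⧸ H (some n), c q • (zA H (some n) * rA H (Quotient.out q)⁻¹) := by
    apply op_injective
    have key : op H (T * zA H (some n)) - op H (∑ q : F2 ⧸ H (some n),
        c q • (zA H (some n) * rA H (Quotient.out q)⁻¹)) = 0 := by
      rw [← map_sub]
      refine eq_zero_of_Om _ (op_mem _) ?_
      rw [map_sub, sub_apply, sub_eq_zero, ← zA_comm, map_mul, op_zA, map_sum, sum_apply]
      ext x
      rw [lp.coeFn_sum, Finset.sum_apply]
      show (Zop H (some n) (op H T (Om H))) x = _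
      have e1 : ∀ q : F2 ⧸ H (some n),
          ((op H (c q • (zA H (some n) * rA H (Quotient.out q)⁻¹))) (Om H)) x =
          if x = (⟨some n, q⟩ : XX H) then (op H T (Om H)) x else 0 := by
        intro q
        rw [map_smul, map_mul, op_zA, op_rA, smul_apply]
        have h1 := congrArg (fun S : HS (XX H) →L[ℂ] HS (XX H) => S (Om H))
          (Zop_Rop H (some n) (Quotient.out q)⁻¹)
        have h2 : (Zop H (some n) * Rop H (Quotient.out q)⁻¹) (Om H) =
            Rop H (Quotient.out q)⁻¹ (Zop H (some n) (Om H)) := h1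
        have h3 : rE H (Quotient.out q) (bp H (some n)) = ⟨some n, q⟩ := by
          show rE H (Quotient.out q) ⟨some n, 1⟩ = _
          rw [rE_mk, one_mul]
          congr 1
          exact Quotient.out_eq' q
        rw [h2, Zop_Om, map_smul, Rop_dl, inv_inv, h3]
        show c q * (((Real.sqrt (wc (some n)) : ℝ) : ℂ) *
          (dl (⟨some n, q⟩ : XX H) : HS (XX H)) x) = _
        rw [dl_apply]
        by_cases hx : x = (⟨some n, q⟩ : XX H)
        · rw [if_pos hx, if_pos hx, hx, mul_one]
          show (op H T (Om H)) ⟨some n, q⟩ / ((Real.sqrt (wc (some n)) : ℝ) : ℂ) *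
            ((Real.sqrt (wc (some n)) : ℝ) : ℂ) = _
          rw [div_mul_cancel₀ _ hw]
        · rw [if_neg hx, if_neg hx, mul_zero, mul_zero]
      rw [Finset.sum_congr rfl fun q _ => e1 q, Zop_apply]
      obtain ⟨i, q0⟩ := x
      by_cases hi : i = some n
      · subst hi
        rw [if_pos rfl, Finset.sum_eq_single q0]
        · rw [if_pos rfl]
        · intro q _ hq
          rw [if_neg]
          intro h
          exact hq (by
            have := Sigma.mk.inj_iff.1 h
            exact (eq_of_heq this.2).symm)
        · intro h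
          exact absurd (Finset.mem_univ _) h
      · rw [if_neg hi, Finset.sum_eq_zero]
        intro q _
        rw [if_neg]
        intro h
        exact hi (congrArg Sigma.fst h)
    exact sub_eq_zero.1 key
  rw [hY]
  refine Submodule.sum_mem _ fun q _ => Submodule.smul_mem _ _ (Submodule.subset_span ?_)
  exact Or.inr ⟨(n, (Quotient.out q)⁻¹), rfl⟩

theorem SP_le : SP H ≤ Submodule.span ℂ (CS H) := by
  unfold SP
  exact Submodule.span_mono Set.subset_union_left

theorem B0_sub (hf : ∀ n, (H (some n)).FiniteIndex) {T : AA H} (hT : T ∈ B0 H) :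
    T ∈ Submodule.span ℂ (CS H) := by
  obtain ⟨p, hp, N, hN⟩ := hT
  have h1 : (T - p) - ∑ n ∈ Finset.range N, (T - p) * zA H (some n) = 0 := by
    refine zero_of_blocks H _ fun i => ?_
    rw [sub_mul, Finset.sum_mul]
    by_cases hi : ∃ m, m < N ∧ i = some m
    · obtain ⟨m, hm, rfl⟩ := hi
      rw [Finset.sum_eq_single m]
      · rw [mul_assoc, zA_idem, sub_self]
      · intro n _ hn
        rw [mul_assoc, zA_orth H _ _ (fun h => hn (Option.some.inj h)), mul_zero]
      · intro h
        exact absurd (Finset.mem_range.2 hm) h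
    · have ht : tail N i := by
        cases i with
        | none => exact Or.inl rfl
        | some m =>
          refine Or.inr ⟨m, ?_, rfl⟩
          by_contra hcon
          exact hi ⟨m, not_le.1 hcon, rfl⟩
      rw [sub_mul, hN i ht, sub_self, zero_sub, neg_eq_zero]
      refine Finset.sum_eq_zero fun n hn => ?_
      rw [mul_assoc, zA_orth, mul_zero]
      intro h
      exact hi ⟨n, Finset.mem_range.1 hn, h.symm⟩
  have h2 : T = p + ∑ n ∈ Finset.range N, (T - p) * zA H (some n) := by
    have h3 := sub_eq_zero.1 h1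
    rw [← h3]
    abel
  rw [h2]
  exact Submodule.add_mem _ (SP_le H hp) (Submodule.sum_mem _ fun n _ => block_mem H hf n _)

theorem sep_BB (hf : ∀ n, (H (some n)).FiniteIndex) :
    TopologicalSpace.SeparableSpace (BB H) := by
  have h1 : TopologicalSpace.IsSeparable
      ((Submodule.span ℂ (CS H) : Submodule ℂ (AA H)) : Set (AA H)) :=
    (countable_CS H).isSeparable.span
  have h3 : ((Bs H : StarSubalgebra ℂ (AA H)) : Set (AA H)) ⊆
      closure ((Submodule.span ℂ (CS H) : Submodule ℂ (AA H)) : Set (AA H)) := by
    unfold Bs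
    rw [StarSubalgebra.topologicalClosure_coe]
    exact closure_mono fun T hT => B0_sub H hf hT
  have h4 : TopologicalSpace.IsSeparable ((Bs H : StarSubalgebra ℂ (AA H)) : Set (AA H)) :=
    h1.closure.mono h3
  exact h4.separableSpace

end Pool.Agent.Y269.HH
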