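import Pool.Agent.Y269.HH.Defs
import Pool.Agent.Y269.HH.Dense
import Pool.Agent.Y269.HH.Sep

set_option autoImplicit false

open scoped InnerProductSpace ComplexOrder ComplexConjugate CStarAlgebra

namespace Pool.Agent.Y269.HH

open Pool.Agent.W665.HAP

theorem main : ∃ (K : Type) (_ : NormedAddCommGroup K) (_ : InnerProductSpace ℂ K)
    (_ : CompleteSpace K) (Ω : K)
    (A : Type) (_ : CStarAlgebra A) (_ : PartialOrder A) (_ : StarOrderedRing A)
    (B : Type) (_ : CStarAlgebra B) (_ : PartialOrder B) (_ : StarOrderedRing B)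
    (τ : A →ₚ[ℂ] ℂ) (σ : B →ₚ[ℂ] ℂ) (π : Rep A K) (j : Mor B A),
    IsFaithfulTracialState τ ∧ IsVectorState τ π Ω ∧ GeneratesVN π j ∧
      IsCyclic (resRep π j) Ω ∧ TopologicalSpace.SeparableSpace B ∧ IsRestriction τ σ j ∧
      HaagerupProperty τ ∧ ¬ HaagerupProperty σ := by
  obtain ⟨H', r, h1, h2, h3, h4, h5, h6⟩ := exists_seq
  have hN : ∀ n, (H' n).Normal := h1
  have hcl : IsClosed (Set.range (iB (HH H'))) := by
    have e : Set.range (iB (HH H')) = ((Bs (HH H') : StarSubalgebra ℂ (AA (HH H'))) :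
        Set (AA (HH H'))) := by
      ext x
      exact ⟨fun ⟨y, hy⟩ => hy ▸ iB_mem y, fun hx => ⟨mkB x hx, rfl⟩⟩
    rw [e]
    exact isClosed_Bs (HH H')
  exact ⟨HS (XX (HH H')), inferInstance, inferInstance, inferInstance, Om (HH H'),
    AA (HH H'), inferInstance, inferInstance, inferInstance, BB (HH H'), inferInstance,
    inferInstance, inferInstance, tau (HH H'), sigma (HH H'), op (HH H'), iB (HH H'),
    tau_isFaithfulTracialState (HH H'), ⟨op_injective, fun a => rfl⟩, bicomm (HH H'),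
    denseRange_B (HH H'), sep_BB (HH H') (fun n => h2 n),
    ⟨iB_injective, hcl, fun b => rfl⟩, haagerup_big H' h2,
    (cfg H' h2 h3 r h4 h5 h6).not_haagerup⟩

end Pool.Agent.Y269.HH
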